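import Pool.Agent.H877Z.Ori.Main

set_option autoImplicit false

open scoped Manifold ContDiff

universe u

namespace Pool.Agent.Results.MP_c1d873_al.ANoDetectingGroup

/-- There is a closed connected smooth surface `M` such that, for every regularity `1 ≤ k ≤ ∞`,
no group at all is a `C^k` detecting group for `M`, even among closed surfaces. -/
theorem result :
    ∃ (M : Type) (_ : TopologicalSpace M) (_ : T2Space M) (_ : CompactSpace M)
      (_ : ConnectedSpace M) (_ : ChartedSpace (EuclideanHalfSpace 2) M)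
      (_ : IsManifold (𝓡∂ 2) ((⊤ : ℕ∞) : WithTop ℕ∞) M),
      BoundarylessManifold (𝓡∂ 2) M ∧
      ∀ (k : ℕ∞), 1 ≤ k → ∀ (G : Type u) [Group G],
        ¬ ∀ (N : Type) [TopologicalSpace N] [T2Space N] [CompactSpace N] [ConnectedSpace N]
          [ChartedSpace (EuclideanHalfSpace 2) N]
          [IsManifold (𝓡∂ 2) ((⊤ : ℕ∞) : WithTop ℕ∞) N],
          BoundarylessManifold (𝓡∂ 2) N →
          ((∃ ρ : G →* Equiv.Perm N, Function.Injective ρ ∧
              ∀ g : G, ContMDiff (𝓡∂ 2) (𝓡∂ 2) (k : WithTop ℕ∞) (ρ g)) ↔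
            Nonempty (Diffeomorph (𝓡∂ 2) (𝓡∂ 2) M N (k : WithTop ℕ∞))) :=
  ⟨Pool.Agent.H877Z.Ori.KB, inferInstance, inferInstance, inferInstance, inferInstance,
    inferInstance, inferInstance, inferInstance,
    fun k hk G _ => Pool.Agent.H877Z.Ori.no_detect k hk G⟩

end Pool.Agent.Results.MP_c1d873_al.ANoDetectingGroup
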